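import Pool.Agent.TH954.V.Defs

/-!
# Families of forms representing linear combinations of points (job 1609)
-/

set_option autoImplicit false

open MvPolynomial WeierstrassCurve Pool.Agent.TH942 Pool.Agent.TH954 Pool.Agent.TH954.V

namespace Pool.Agent.TH135.J1609

section hom

variable {K : Type} [Field K] {k : ℕ}

/-- the weights of the `i`-th group -/
def wt (k : ℕ) (i : Fin k) : Fin k × Fin 3 → ℕ := fun p => if p.1 = i then 1 else 0

lemma weight_wt (i : Fin k) (m : Fin k × Fin 3 →₀ ℕ) :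
    Finsupp.weight (wt k i) m = ∑ j, m (i, j) := by
  rw [Finsupp.weight_apply, Finsupp.sum_fintype _ _ (by simp), Fintype.sum_prod_type]
  simp only [wt, smul_eq_mul, mul_ite, mul_one, mul_zero]
  rw [Finset.sum_eq_single i]
  · simp
  · intro l _ hl
    simp [hl]
  · simp

lemma multiHom_iff {d : Fin k → ℕ} {f : MvPolynomial (Fin k × Fin 3) K} :
    MultiHom d f ↔ ∀ i, IsWeightedHomogeneous (wt k i) f (d i) := by
  constructor
  · intro h i m hm
    rw [weight_wt]
    exact h m (by rwa [mem_support_iff]) i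
  · intro h m hm i
    rw [← weight_wt]
    exact h i (by rwa [mem_support_iff] at hm)

end hom

section laws

variable {σ : Type} {K : Type} [Field K] {w : σ → ℕ}

lemma wsub {f g : MvPolynomial σ K} {d : ℕ} (hf : IsWeightedHomogeneous w f d)
    (hg : IsWeightedHomogeneous w g d) : IsWeightedHomogeneous w (f - g) d := by
  have := (weightedHomogeneousSubmodule K w d).sub_mem
    ((mem_weightedHomogeneousSubmodule _ _ _ _).mpr hf)
    ((mem_weightedHomogeneousSubmodule _ _ _ _).mpr hg)
  exact (mem_weightedHomogeneousSubmodule _ _ _ _).mp this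

lemma wneg {f : MvPolynomial σ K} {d : ℕ} (hf : IsWeightedHomogeneous w f d) :
    IsWeightedHomogeneous w (-f) d := by
  have := (weightedHomogeneousSubmodule K w d).neg_mem
    ((mem_weightedHomogeneousSubmodule _ _ _ _).mpr hf)
  exact (mem_weightedHomogeneousSubmodule _ _ _ _).mp this

lemma wC (r : K) {f : MvPolynomial σ K} {d : ℕ} (hf : IsWeightedHomogeneous w f d) :
    IsWeightedHomogeneous w (C r * f) d := by
  have := (isWeightedHomogeneous_C w r).mul hf
  rwa [zero_add] at this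

lemma wmul {f g : MvPolynomial σ K} {d e : ℕ} (hf : IsWeightedHomogeneous w f d)
    (hg : IsWeightedHomogeneous w g e) : IsWeightedHomogeneous w (f * g) (d + e) := hf.mul hg

lemma law1_hom (a b : K) {p q : Fin 3 → MvPolynomial σ K} {d e : ℕ}
    (hp : ∀ i, IsWeightedHomogeneous w (p i) d) (hq : ∀ i, IsWeightedHomogeneous w (q i) e)
    (c : Fin 3) : IsWeightedHomogeneous w (law1 (C a) (C b) p q c) (2 * d + 2 * e) := by
  have hpq : ∀ i j, IsWeightedHomogeneous w (p i * q j) (d + e) := fun i j => (hp i).mul (hq j)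
  have hqp : ∀ i j, IsWeightedHomogeneous w (q i * p j) (d + e) := fun i j => by
    rw [mul_comm]; exact hpq j i
  have he : 2 * d + 2 * e = (d + e) + (d + e) := by ring
  have h3 : ∀ f : MvPolynomial σ K, (3 : MvPolynomial σ K) * f = C 3 * f := fun f => by
    have : (C (3 : K) : MvPolynomial σ K) = 3 := map_ofNat C 3
    rw [this]
  rw [he]
  fin_cases c
  · have h : law1 (C a) (C b) p q 0 =
      (p 0 * q 1 - q 0 * p 1) * (p 1 * q 2 + q 1 * p 2)
      + (p 0 * q 2 - q 0 * p 2) * (p 1 * q 1)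
      - C a * ((p 0 * q 2 + q 0 * p 2) * (p 0 * q 2 - q 0 * p 2))
      - C 3 * (C b * ((p 0 * q 2 - q 0 * p 2) * (p 2 * q 2))) := by
      rw [← h3]
      simp only [law1, Matrix.cons_val_zero]
      ring
    change IsWeightedHomogeneous w (law1 (C a) (C b) p q 0) _
    rw [h]
    exact wsub (wsub (((wsub (hpq _ _) (hqp _ _)).mul ((hpq _ _).add (hqp _ _))).add
      ((wsub (hpq _ _) (hqp _ _)).mul (hpq _ _)))
      (wC _ (((hpq _ _).add (hqp _ _)).mul (wsub (hpq _ _) (hqp _ _)))))
      (wC _ (wC _ ((wsub (hpq _ _) (hqp _ _)).mul (hpq _ _))))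
  · have h : law1 (C a) (C b) p q 1 =
      -(C 3 * ((p 0 * q 0) * (p 0 * q 1 - q 0 * p 1))) - (p 1 * q 1) * (p 1 * q 2 - q 1 * p 2)
      - C a * ((p 0 * q 1 - q 0 * p 1) * (p 2 * q 2))
      + C a * ((p 0 * q 2 + q 0 * p 2) * (p 1 * q 2 - q 1 * p 2))
      + C 3 * (C b * ((p 1 * q 2 - q 1 * p 2) * (p 2 * q 2))) := by
      rw [← h3, ← h3]
      simp only [law1, Matrix.cons_val_one, Matrix.cons_val_zero]
      ring
    change IsWeightedHomogeneous w (law1 (C a) (C b) p q 1) _
    rw [h]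
    exact ((wsub (wsub (wneg (wC _ ((hpq _ _).mul (wsub (hpq _ _) (hqp _ _)))))
      ((hpq _ _).mul (wsub (hpq _ _) (hqp _ _))))
      (wC _ ((wsub (hpq _ _) (hqp _ _)).mul (hpq _ _)))).add
      (wC _ (((hpq _ _).add (hqp _ _)).mul (wsub (hpq _ _) (hqp _ _))))).add
      (wC _ (wC _ ((wsub (hpq _ _) (hqp _ _)).mul (hpq _ _))))
  · have h : law1 (C a) (C b) p q 2 =
      C 3 * ((p 0 * q 0) * (p 0 * q 2 - q 0 * p 2))
      - (p 1 * q 2 + q 1 * p 2) * (p 1 * q 2 - q 1 * p 2)
      + C a * ((p 0 * q 2 - q 0 * p 2) * (p 2 * q 2)) := by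
      rw [← h3]
      simp only [law1, Matrix.cons_val]
      ring
    change IsWeightedHomogeneous w (law1 (C a) (C b) p q 2) _
    rw [h]
    exact (wsub (wC _ ((hpq _ _).mul (wsub (hpq _ _) (hqp _ _))))
      (((hpq _ _).add (hqp _ _)).mul (wsub (hpq _ _) (hqp _ _)))).add
      (wC _ ((wsub (hpq _ _) (hqp _ _)).mul (hpq _ _)))

lemma law2_hom (a b : K) {p q : Fin 3 → MvPolynomial σ K} {d e : ℕ}
    (hp : ∀ i, IsWeightedHomogeneous w (p i) d) (hq : ∀ i, IsWeightedHomogeneous w (q i) e)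
    (c : Fin 3) : IsWeightedHomogeneous w (law2 (C a) (C b) p q c) (2 * d + 2 * e) := by
  have hpq : ∀ i j, IsWeightedHomogeneous w (p i * q j) (d + e) := fun i j => (hp i).mul (hq j)
  have hqp : ∀ i j, IsWeightedHomogeneous w (q i * p j) (d + e) := fun i j => by
    rw [mul_comm]; exact hpq j i
  have he : 2 * d + 2 * e = (d + e) + (d + e) := by ring
  have h3 : ∀ f : MvPolynomial σ K, (3 : MvPolynomial σ K) * f = C 3 * f := fun f => by
    have : (C (3 : K) : MvPolynomial σ K) = 3 := map_ofNat C 3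
    rw [this]
  have hA : IsWeightedHomogeneous w (p 1 * q 1 - C a * (p 0 * q 2 + q 0 * p 2)
      - C 3 * (C b * (p 2 * q 2))) (d + e) :=
    wsub (wsub (hpq _ _) (wC _ ((hpq _ _).add (hqp _ _)))) (wC _ (wC _ (hpq _ _)))
  have hB : IsWeightedHomogeneous w (p 1 * q 1 + C a * (p 0 * q 2 + q 0 * p 2)
      + C 3 * (C b * (p 2 * q 2))) (d + e) :=
    ((hpq _ _).add (wC _ ((hpq _ _).add (hqp _ _)))).add (wC _ (wC _ (hpq _ _)))
  have hG : IsWeightedHomogeneous w (C a * (p 0 * q 0) + C 3 * (C b * (p 0 * q 2 + q 0 * p 2))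
      - C (a ^ 2) * (p 2 * q 2)) (d + e) :=
    wsub ((wC _ (hpq _ _)).add (wC _ (wC _ ((hpq _ _).add (hqp _ _))))) (wC _ (hpq _ _))
  have hT : IsWeightedHomogeneous w (C 3 * (p 0 * q 0) + C a * (p 2 * q 2)) (d + e) :=
    (wC _ (hpq _ _)).add (wC _ (hpq _ _))
  rw [he]
  fin_cases c
  · have h : law2 (C a) (C b) p q 0 =
      (p 0 * q 1 + q 0 * p 1) * (p 1 * q 1 - C a * (p 0 * q 2 + q 0 * p 2)
        - C 3 * (C b * (p 2 * q 2)))
      - (p 1 * q 2 + q 1 * p 2) * (C a * (p 0 * q 0) + C 3 * (C b * (p 0 * q 2 + q 0 * p 2))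
      - C (a ^ 2) * (p 2 * q 2)) := by
      rw [← h3, ← h3, C_pow]
      simp only [law2, Matrix.cons_val_zero]
      ring
    change IsWeightedHomogeneous w (law2 (C a) (C b) p q 0) _
    rw [h]
    exact wsub (((hpq _ _).add (hqp _ _)).mul hA) (((hpq _ _).add (hqp _ _)).mul hG)
  · have h : law2 (C a) (C b) p q 1 =
      (C 3 * (p 0 * q 0) + C a * (p 2 * q 2)) *
        (C a * (p 0 * q 0) + C 3 * (C b * (p 0 * q 2 + q 0 * p 2))
      - C (a ^ 2) * (p 2 * q 2))
      + (p 1 * q 1 + C a * (p 0 * q 2 + q 0 * p 2)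
      + C 3 * (C b * (p 2 * q 2))) * (p 1 * q 1 - C a * (p 0 * q 2 + q 0 * p 2)
      - C 3 * (C b * (p 2 * q 2))) := by
      simp only [← h3, C_pow]
      simp only [law2, Matrix.cons_val_one, Matrix.cons_val_zero]
      ring
    change IsWeightedHomogeneous w (law2 (C a) (C b) p q 1) _
    rw [h]
    exact (hT.mul hG).add (hB.mul hA)
  · have h : law2 (C a) (C b) p q 2 =
      (p 1 * q 2 + q 1 * p 2) * (p 1 * q 1 + C a * (p 0 * q 2 + q 0 * p 2)
      + C 3 * (C b * (p 2 * q 2)))
      + (p 0 * q 1 + q 0 * p 1) * (C 3 * (p 0 * q 0) + C a * (p 2 * q 2)) := by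
      simp only [← h3]
      simp only [law2, Matrix.cons_val]
      ring
    change IsWeightedHomogeneous w (law2 (C a) (C b) p q 2) _
    rw [h]
    exact (((hpq _ _).add (hqp _ _)).mul hB).add (((hpq _ _).add (hqp _ _)).mul hT)

lemma law1_map {R S : Type} [CommRing R] [CommRing S] (φ : R →+* S) (a b : R) (p q : Fin 3 → R)
    (c : Fin 3) : φ (law1 a b p q c) = law1 (φ a) (φ b) (fun i => φ (p i)) (fun i => φ (q i)) c := by
  have h3 : φ 3 = 3 := map_ofNat φ 3
  fin_cases c <;> simp [law1, h3]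

lemma law2_map {R S : Type} [CommRing R] [CommRing S] (φ : R →+* S) (a b : R) (p q : Fin 3 → R)
    (c : Fin 3) : φ (law2 a b p q c) = law2 (φ a) (φ b) (fun i => φ (p i)) (fun i => φ (q i)) c := by
  have h3 : φ 3 = 3 := map_ofNat φ 3
  fin_cases c <;> simp [law2, h3]

lemma law1_smul {R : Type} [CommRing R] (a b s t : R) (p q : Fin 3 → R) :
    law1 a b (s • p) (t • q) = (s ^ 2 * t ^ 2) • law1 a b p q := by
  funext c
  fin_cases c
  · simp [law1]; ring
  · simp [law1]; ring
  · simp [law1]; ring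

lemma law2_smul {R : Type} [CommRing R] (a b s t : R) (p q : Fin 3 → R) :
    law2 a b (s • p) (t • q) = (s ^ 2 * t ^ 2) • law2 a b p q := by
  funext c
  fin_cases c
  · simp [law2]; ring
  · simp [law2]; ring
  · simp [law2]; ring

end laws

section evc

variable {K F : Type} [Field K] [Field F] [Algebra K F] {k : ℕ}

/-- evaluation as a ring homomorphism -/
noncomputable def ev (u : Fin k → Fin 3 → F) : MvPolynomial (Fin k × Fin 3) K →+* F :=
  (aeval (fun p : Fin k × Fin 3 => u p.1 p.2) : MvPolynomial (Fin k × Fin 3) K →ₐ[K] F).toRingHom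

lemma evc_eq (f : MvPolynomial (Fin k × Fin 3) K) (u : Fin k → Fin 3 → F) :
    evc f u = ev u f := rfl

lemma ev_X (u : Fin k → Fin 3 → F) (p : Fin k × Fin 3) :
    ev (K := K) u (X p) = u p.1 p.2 := by
  simp [ev]

lemma ev_C (u : Fin k → Fin 3 → F) (x : K) :
    ev (K := K) u (C x) = algebraMap K F x := by
  simp [ev]

end evc

section rep

variable {K : Type} [Field K] {a b : K} {k : ℕ}

/-- the two laws applied to polynomials -/
noncomputable def lawP (a b : K) (i : Bool) (p q : Fin 3 → MvPolynomial (Fin k × Fin 3) K) :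
    Fin 3 → MvPolynomial (Fin k × Fin 3) K :=
  if i then law1 (C a) (C b) p q else law2 (C a) (C b) p q

/-- the two laws -/
noncomputable def lawF {F : Type} [Field F] (a b : F) (i : Bool) (p q : Fin 3 → F) :
    Fin 3 → F := if i then law1 a b p q else law2 a b p q

lemma lawP_hom (i : Bool) {p q : Fin 3 → MvPolynomial (Fin k × Fin 3) K} {d e : ℕ}
    (hp : ∀ c, MultiHom (fun _ => d) (p c)) (hq : ∀ c, MultiHom (fun _ => e) (q c)) (c : Fin 3) :
    MultiHom (fun _ => 2 * d + 2 * e) (lawP a b i p q c) := by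
  rw [multiHom_iff]
  intro j
  have hp' := fun c => multiHom_iff.mp (hp c) j
  have hq' := fun c => multiHom_iff.mp (hq c) j
  cases i
  · exact law2_hom a b hp' hq' c
  · exact law1_hom a b hp' hq' c

lemma ev_lawP {F : Type} [Field F] [Algebra K F] (i : Bool)
    (p q : Fin 3 → MvPolynomial (Fin k × Fin 3) K) (u : Fin k → Fin 3 → F) :
    (fun c => evc (lawP a b i p q c) u) =
      lawF (algebraMap K F a) (algebraMap K F b) i (fun c => evc (p c) u)
        (fun c => evc (q c) u) := by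
  funext c
  cases i
  · change ev u (law2 (C a) (C b) p q c) = _
    rw [law2_map, ev_C, ev_C]
    rfl
  · change ev u (law1 (C a) (C b) p q c) = _
    rw [law1_map, ev_C, ev_C]
    rfl

lemma lawF_smul {F : Type} [Field F] (a b : F) (i : Bool) (s t : F) (p q : Fin 3 → F) :
    lawF a b i (s • p) (t • q) = (s ^ 2 * t ^ 2) • lawF a b i p q := by
  cases i
  · exact law2_smul a b s t p q
  · exact law1_smul a b s t p q

theorem rep_add [CharZero K] (hlaw : T_law) (hD : 4 * a ^ 3 + 27 * b ^ 2 ≠ 0)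
    {n n' : Fin k → ℤ} {D D' : ℕ}
    (h : Rep a b k n D) (h' : Rep a b k n' D') : Rep a b k (n + n') (2 * D + 2 * D') := by
  classical
  obtain ⟨Fam, hF1, hF2⟩ := h
  obtain ⟨Fam', hF1', hF2'⟩ := h'
  refine ⟨(Finset.univ ×ˢ (Fam ×ˢ Fam')).image (fun x : Bool × _ × _ => lawP a b x.1 x.2.1 x.2.2),
    ?_, ?_⟩
  · intro C hC c
    rw [Finset.mem_image] at hC
    obtain ⟨⟨i, p, q⟩, hx, rfl⟩ := hC
    simp only [Finset.mem_product, Finset.mem_univ, true_and] at hx
    exact lawP_hom i (hF1 p hx.1) (hF1' q hx.2) c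
  · intro F _ _ _ a' b' ha' hb' η
    have : CharZero F := charZero_of_injective_algebraMap (algebraMap K F).injective
    have hD' : 4 * a' ^ 3 + 27 * b' ^ 2 ≠ 0 := by
      intro h0
      apply hD
      apply (algebraMap K F).injective
      rw [map_zero, ← h0, ha', hb']
      simp only [map_add, map_mul, map_pow, map_ofNat]
    obtain ⟨g1, C, hC, c, hc⟩ := hF2 F a' b' ha' hb' η
    obtain ⟨g1', C', hC', c', hc'⟩ := hF2' F a' b' ha' hb' η
    have hsum : ∑ j, (n + n') j • η j = ∑ j, n j • η j + ∑ j, n' j • η j := by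
      rw [← Finset.sum_add_distrib]
      exact Finset.sum_congr rfl (fun j _ => by rw [Pi.add_apply, add_zsmul])
    obtain ⟨e1, e2, e3⟩ := hlaw F a' b' hD' (∑ j, n j • η j) (∑ j, n' j • η j)
    have hex : ∀ i : Bool, ∃ s : F, lawF a' b' i (crd (∑ j, n j • η j))
        (crd (∑ j, n' j • η j)) = s • crd (∑ j, (n + n') j • η j) := by
      rw [hsum]
      intro i
      cases i
      · exact e2
      · exact e1
    have hkey : ∀ (i : Bool) (p q : Fin 3 → MvPolynomial (Fin k × Fin 3) K) (s t : F),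
        (fun c => evc (p c) (fun j => crd (η j))) = s • crd (∑ j, n j • η j) →
        (fun c => evc (q c) (fun j => crd (η j))) = t • crd (∑ j, n' j • η j) →
        (fun c => evc (lawP a b i p q c) (fun j => crd (η j))) =
          (s ^ 2 * t ^ 2) • lawF a' b' i (crd (∑ j, n j • η j)) (crd (∑ j, n' j • η j)) := by
      intro i p q s t hs ht
      rw [ev_lawP, ← ha', ← hb', hs, ht, lawF_smul]
    constructor
    · intro T hT
      rw [Finset.mem_image] at hT
      obtain ⟨⟨i, p, q⟩, hx, rfl⟩ := hT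
      simp only [Finset.mem_product, Finset.mem_univ, true_and] at hx
      obtain ⟨s, hs⟩ := g1 p hx.1
      obtain ⟨t, ht⟩ := g1' q hx.2
      obtain ⟨r, hr⟩ := hex i
      refine ⟨s ^ 2 * t ^ 2 * r, ?_⟩
      rw [hkey i p q s t hs ht, hr, smul_smul]
    · obtain ⟨s, hs⟩ := g1 C hC
      obtain ⟨t, ht⟩ := g1' C' hC'
      have hs0 : s ≠ 0 := by
        rintro rfl
        apply hc
        have := congrFun hs c
        simpa using this
      have ht0 : t ≠ 0 := by
        rintro rfl
        apply hc'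
        have := congrFun ht c'
        simpa using this
      have : ∃ i : Bool, lawF a' b' i (crd (∑ j, n j • η j)) (crd (∑ j, n' j • η j)) ≠ 0 := by
        rcases e3 with e3 | e3
        · exact ⟨true, e3⟩
        · exact ⟨false, e3⟩
      obtain ⟨i, hi⟩ := this
      refine ⟨lawP a b i C C', Finset.mem_image.mpr ⟨(i, C, C'), ?_, rfl⟩, ?_⟩
      · simp [hC, hC']
      · by_contra hcon
        push Not at hcon
        apply hi
        have h1 : (fun c => evc (lawP a b i C C' c) (fun j => crd (η j))) = 0 := funext hcon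
        rw [hkey i C C' s t hs ht] at h1
        rcases smul_eq_zero.mp h1 with h2 | h2
        · exact absurd h2 (mul_ne_zero (pow_ne_zero _ hs0) (pow_ne_zero _ ht0))
        · exact h2

lemma crd_neg {F : Type} [Field F] {a' b' : F} (P : SPt a' b') :
    ∃ s : F, ![crd P 0, -crd P 1, crd P 2] = s • crd (-P) := by
  match P with
  | .zero =>
    refine ⟨-1, ?_⟩
    have h1 : (-(Affine.Point.zero : SPt a' b')) = 0 := rfl
    rw [h1, crd_zero]
    funext c
    fin_cases c <;> simp [TH954.crd]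
  | .some x y h =>
    refine ⟨1, ?_⟩
    rw [Affine.Point.neg_some]
    funext c
    fin_cases c <;> simp [TH954.crd, Affine.negY, sw]

theorem rep_neg {n : Fin k → ℤ} {D : ℕ} (h : Rep a b k n D) : Rep a b k (-n) D := by
  classical
  obtain ⟨Fam, hF1, hF2⟩ := h
  refine ⟨Fam.image (fun p => ![p 0, -p 1, p 2]), ?_, ?_⟩
  · intro C hC c
    rw [Finset.mem_image] at hC
    obtain ⟨p, hp, rfl⟩ := hC
    fin_cases c
    · exact hF1 p hp 0
    · have := hF1 p hp 1
      intro m hm
      have hm' : m ∈ (p 1).support := by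
        have : m ∈ (-(p 1)).support := hm
        rwa [support_neg] at this
      exact this m hm'
    · exact hF1 p hp 2
  · intro F _ _ _ a' b' ha' hb' η
    obtain ⟨g1, C, hC, c, hc⟩ := hF2 F a' b' ha' hb' η
    have hsum : ∑ j, (-n) j • η j = -∑ j, n j • η j := by
      rw [← Finset.sum_neg_distrib]
      exact Finset.sum_congr rfl (fun j _ => by rw [Pi.neg_apply, neg_zsmul])
    constructor
    · intro T hT
      rw [Finset.mem_image] at hT
      obtain ⟨p, hp, rfl⟩ := hT
      obtain ⟨s, hs⟩ := g1 p hp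
      obtain ⟨t, ht⟩ := crd_neg (∑ j, n j • η j)
      refine ⟨s * t, ?_⟩
      rw [hsum, ← smul_smul, ← ht]
      funext c
      have h0 := congrFun hs c
      fin_cases c
      · exact congrFun hs 0
      · have h1 := congrFun hs 1
        simp only [Pi.smul_apply, smul_eq_mul] at h1
        change evc (-(p 1)) _ = _
        rw [evc_eq, map_neg, ← evc_eq, h1]
        simp
      · exact congrFun hs 2
    · refine ⟨_, Finset.mem_image_of_mem _ hC, c, ?_⟩
      fin_cases c
      · exact hc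
      · change evc (-(C 1)) _ ≠ 0
        rw [evc_eq, map_neg, ← evc_eq]
        exact neg_ne_zero.mpr hc
      · exact hc

lemma exists_crd_ne {F : Type} [Field F] {a' b' : F} (P : SPt a' b') : ∃ c, crd P c ≠ 0 := by
  by_contra h
  push Not at h
  exact crd_ne_zero P (funext h)

lemma mh_X (l : Fin k) (c : Fin 3) (i : Fin k) :
    IsWeightedHomogeneous (wt k i) (X (l, c) : MvPolynomial (Fin k × Fin 3) K)
      (if l = i then 1 else 0) := by
  have := isWeightedHomogeneous_X K (wt k i) (l, c)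
  exact this

theorem rep_single (j : Fin k) : Rep a b k (Pi.single j 1) 1 := by
  classical
  refine ⟨(Finset.univ : Finset (Fin k → Fin 3)).image
    (fun c t => X (j, t) * ∏ l ∈ Finset.univ.erase j, X (l, c l)), ?_, ?_⟩
  · intro C hC t
    rw [Finset.mem_image] at hC
    obtain ⟨c, _, rfl⟩ := hC
    rw [multiHom_iff]
    intro i
    have h1 : IsWeightedHomogeneous (wt k i)
        (∏ l ∈ Finset.univ.erase j, (X (l, c l) : MvPolynomial (Fin k × Fin 3) K))
        (∑ l ∈ Finset.univ.erase j, if l = i then 1 else 0) :=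
      IsWeightedHomogeneous.prod _ _ _ (fun l _ => mh_X l (c l) i)
    have h2 := (mh_X (K := K) j t i).mul h1
    have h3 : (if j = i then 1 else 0) + (∑ l ∈ Finset.univ.erase j, if l = i then 1 else 0) =
        1 := by
      rw [Finset.add_sum_erase _ (fun l => if l = i then 1 else 0) (Finset.mem_univ j)]
      simp
    rw [h3] at h2
    exact h2
  · intro F _ _ _ a' b' ha' hb' η
    have hsum : ∑ l, (Pi.single j 1 : Fin k → ℤ) l • η l = η j := by
      rw [Finset.sum_eq_single j]
      · simp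
      · intro l _ hl
        simp [hl]
      · simp
    have hev : ∀ (c : Fin k → Fin 3) (t : Fin 3),
        evc (X (j, t) * ∏ l ∈ Finset.univ.erase j, X (l, c l) : MvPolynomial (Fin k × Fin 3) K)
          (fun j => crd (η j)) =
        (∏ l ∈ Finset.univ.erase j, crd (η l) (c l)) * crd (η j) t := by
      intro c t
      rw [evc_eq, map_mul, map_prod, ev_X, mul_comm]
      simp only [ev_X]
    rw [hsum]
    constructor
    · intro T hT
      rw [Finset.mem_image] at hT
      obtain ⟨c, _, rfl⟩ := hT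
      refine ⟨∏ l ∈ Finset.univ.erase j, crd (η l) (c l), ?_⟩
      funext t
      exact hev c t
    · choose c hc using fun l => exists_crd_ne (η l)
      refine ⟨_, Finset.mem_image_of_mem _ (Finset.mem_univ c), c j, ?_⟩
      rw [hev]
      exact mul_ne_zero (Finset.prod_ne_zero_iff.mpr (fun l _ => hc l)) (hc j)

theorem rep_zero (D : ℕ) : Rep a b k 0 D := by
  classical
  refine ⟨(Finset.univ : Finset (Fin k → Fin 3)).image
    (fun c => ![0, ∏ l, X (l, c l) ^ D, 0]), ?_, ?_⟩
  · intro C hC t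
    rw [Finset.mem_image] at hC
    obtain ⟨c, _, rfl⟩ := hC
    rw [multiHom_iff]
    intro i
    have h1 : IsWeightedHomogeneous (wt k i)
        (∏ l, (X (l, c l) : MvPolynomial (Fin k × Fin 3) K) ^ D)
        (∑ l, D • (if l = i then 1 else 0)) :=
      IsWeightedHomogeneous.prod _ _ _ (fun l _ => (mh_X l (c l) i).pow D)
    have h3 : (∑ l : Fin k, D • (if l = i then 1 else 0)) = D := by
      simp
    rw [h3] at h1
    fin_cases t
    · exact isWeightedHomogeneous_zero _ _ _
    · exact h1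
    · exact isWeightedHomogeneous_zero _ _ _
  · intro F _ _ _ a' b' ha' hb' η
    have hsum : ∑ l, (0 : Fin k → ℤ) l • η l = 0 := by simp
    have hev : ∀ (c : Fin k → Fin 3),
        evc (∏ l, X (l, c l) ^ D : MvPolynomial (Fin k × Fin 3) K)
          (fun j => crd (η j)) = ∏ l, crd (η l) (c l) ^ D := by
      intro c
      rw [evc_eq, map_prod]
      simp only [map_pow, ev_X]
    have hev0 : evc (0 : MvPolynomial (Fin k × Fin 3) K) (fun j => crd (η j)) = 0 := by
      rw [evc_eq, map_zero]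
    rw [hsum, crd_zero]
    constructor
    · intro T hT
      rw [Finset.mem_image] at hT
      obtain ⟨c, _, rfl⟩ := hT
      refine ⟨∏ l, crd (η l) (c l) ^ D, ?_⟩
      funext t
      fin_cases t
      · simpa using hev0
      · simpa using hev c
      · simpa using hev0
    · choose c hc using fun l => exists_crd_ne (η l)
      refine ⟨_, Finset.mem_image_of_mem _ (Finset.mem_univ c), 1, ?_⟩
      change evc (∏ l, X (l, c l) ^ D) _ ≠ 0
      rw [hev]
      exact Finset.prod_ne_zero_iff.mpr (fun l _ => pow_ne_zero _ (hc l))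

theorem rep_nat [CharZero K] (hlaw : T_law) (hD : 4 * a ^ 3 + 27 * b ^ 2 ≠ 0) (j : Fin k) :
    ∀ N : ℕ, 1 ≤ N → ∃ D : ℕ, 1 ≤ D ∧ 2 * D + 1 ≤ 3 * N ^ 2 ∧
      Rep a b k (Pi.single j (N : ℤ)) D := by
  intro N
  induction N using Nat.strong_induction_on with
  | _ N ih =>
    intro hN
    rcases Nat.lt_or_ge N 2 with h2 | h2
    · have : N = 1 := by omega
      subst this
      exact ⟨1, le_rfl, by norm_num, by simpa using rep_single j⟩
    · obtain ⟨M, hM⟩ := Nat.even_or_odd' N
      rcases hM with hM | hM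
      · obtain ⟨D, h1, h3, h4⟩ := ih M (by omega) (by omega)
        refine ⟨2 * D + 2 * D, by omega, ?_, ?_⟩
        · rw [hM]; nlinarith
        · have := rep_add hlaw hD h4 h4
          rw [← Pi.single_add] at this
          have e : ((M : ℤ) + M) = (N : ℤ) := by rw [hM]; push_cast; ring
          rwa [e] at this
      · obtain ⟨D, h1, h3, h4⟩ := ih M (by omega) (by omega)
        obtain ⟨D', h1', h3', h4'⟩ := ih (M + 1) (by omega) (by omega)
        refine ⟨2 * D + 2 * D', by omega, ?_, ?_⟩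
        · rw [hM]; nlinarith
        · have := rep_add hlaw hD h4 h4'
          rw [← Pi.single_add] at this
          have e : ((M : ℤ) + ((M + 1 : ℕ) : ℤ)) = (N : ℤ) := by rw [hM]; push_cast; ring
          rwa [e] at this

theorem rep_int [CharZero K] (hlaw : T_law) (hD : 4 * a ^ 3 + 27 * b ^ 2 ≠ 0) (j : Fin k)
    (n : ℤ) : ∃ D : ℕ, 1 ≤ D ∧ (D : ℤ) ≤ 2 * (1 + n ^ 2) ∧ Rep a b k (Pi.single j n) D := by
  rcases lt_trichotomy n 0 with h | h | h
  · obtain ⟨N, hN⟩ := Int.eq_ofNat_of_zero_le (show 0 ≤ -n by omega)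
    obtain ⟨D, h1, h2, h3⟩ := rep_nat hlaw hD j N (by omega)
    refine ⟨D, h1, ?_, ?_⟩
    · have h4 : (2 * (D : ℤ) + 1) ≤ 3 * (N : ℤ) ^ 2 := by exact_mod_cast h2
      have h5 : n ^ 2 = (N : ℤ) ^ 2 := by rw [← hN]; ring
      rw [h5]
      nlinarith [sq_nonneg (N : ℤ)]
    · have := rep_neg h3
      rw [← Pi.single_neg] at this
      have e : -(N : ℤ) = n := by omega
      rwa [e] at this
  · subst h
    refine ⟨1, le_rfl, by norm_num, ?_⟩
    rw [Pi.single_zero]
    exact rep_zero 1
  · obtain ⟨N, hN⟩ := Int.eq_ofNat_of_zero_le h.le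
    obtain ⟨D, h1, h2, h3⟩ := rep_nat hlaw hD j N (by omega)
    refine ⟨D, h1, ?_, ?_⟩
    · have h4 : (2 * (D : ℤ) + 1) ≤ 3 * (N : ℤ) ^ 2 := by exact_mod_cast h2
      rw [hN]
      nlinarith [sq_nonneg (N : ℤ)]
    · rwa [hN]

/-- the constants -/
def cst : ℕ → ℕ
  | 0 => 1
  | m + 1 => 2 * cst m + 4

theorem rep_finset [CharZero K] (hlaw : T_law) (hD : 4 * a ^ 3 + 27 * b ^ 2 ≠ 0)
    (n : Fin k → ℤ) (s : Finset (Fin k)) :
    ∃ D : ℕ, 1 ≤ D ∧ (D : ℤ) ≤ cst s.card * (1 + ∑ j ∈ s, n j ^ 2) ∧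
      Rep a b k (∑ j ∈ s, Pi.single j (n j)) D := by
  classical
  induction s using Finset.induction_on with
  | empty => exact ⟨1, le_rfl, by simp [cst], by simpa using rep_zero 1⟩
  | insert j s hj ih =>
    obtain ⟨D, h1, h2, h3⟩ := ih
    obtain ⟨D', h1', h2', h3'⟩ := rep_int hlaw hD j (n j)
    refine ⟨2 * D' + 2 * D, by omega, ?_, ?_⟩
    · rw [Finset.sum_insert hj, Finset.card_insert_of_notMem hj]
      simp only [cst]
      push_cast
      have h5 : 0 ≤ ∑ j ∈ s, n j ^ 2 := Finset.sum_nonneg (fun _ _ => sq_nonneg _)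
      have h6 : 0 ≤ n j ^ 2 := sq_nonneg _
      have h7 : (0 : ℤ) ≤ cst s.card := by positivity
      nlinarith [mul_nonneg h7 h6, mul_nonneg h7 h5]
    · rw [Finset.sum_insert hj]
      exact rep_add hlaw hD h3' h3

end rep

/-- **Job 1609.** -/
theorem fam (hlaw : T_law) : T_fam := by
  intro K _ _ a b hD k
  refine ⟨cst k, fun n => ?_⟩
  obtain ⟨D, h1, h2, h3⟩ := rep_finset (a := a) (b := b) hlaw hD n Finset.univ
  refine ⟨D, h1, ?_, ?_⟩
  · simpa using h2
  · have e : ∑ j, Pi.single j (n j) = n := by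
      rw [Finset.univ_sum_single]
    rwa [e] at h3

end Pool.Agent.TH135.J1609
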