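import Pool.Agent.TH694.FV.Defs2

/-!
# Minimal parts with two boundary vertices are 3-connected
-/

set_option autoImplicit false

namespace Pool.Agent.TH135.J2476

open Pool.Agent.TH694.FV

variable {F F' H : Finset Ed} {A : Finset ℕ} {v w z u : ℕ} {e f g : Ed}

theorem reach_notin (h : Reach F A v w) (hv : v ∉ A) : w ∉ A := by
  unfold Reach at h
  induction h with
  | refl => exact hv
  | tail _ hbc _ => exact hbc.1

theorem reach_symm (h : Reach F A v w) (hv : v ∉ A) : Reach F A w v := by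
  unfold Reach at h
  induction h with
  | refl => exact Relation.ReflTransGen.refl
  | tail hab hbc ih =>
    obtain ⟨_, e, he, h1, h2⟩ := hbc
    exact Relation.ReflTransGen.head ⟨reach_notin hab hv, e, he, h2, h1⟩ ih

theorem reach_mono (hF : F ⊆ F') (h : Reach F A v w) : Reach F' A v w := by
  unfold Reach at h ⊢
  induction h with
  | refl => exact Relation.ReflTransGen.refl
  | tail _ hbc ih =>
    obtain ⟨h1, e, he, h2⟩ := hbc
    exact Relation.ReflTransGen.tail ih ⟨h1, e, hF he, h2⟩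

theorem reach_trans (h : Reach F A v w) (h' : Reach F A w z) : Reach F A v z :=
  Relation.ReflTransGen.trans h h'

theorem reach_step (h : Reach F A v w) (he : e ∈ F) (hw : w ∈ ends e) (hz : z ∈ ends e)
    (hzA : z ∉ A) : Reach F A v z :=
  Relation.ReflTransGen.tail h ⟨hzA, e, he, hw, hz⟩

theorem reach_vs (h : Reach F A v w) (hv : v ∈ vs F) : w ∈ vs F := by
  unfold Reach at h
  induction h with
  | refl => exact hv
  | tail _ hbc _ =>
    obtain ⟨_, e, he, _, h2⟩ := hbc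
    exact mem_vs.2 ⟨e, he, h2⟩

theorem mem_cls : f ∈ cls H A e ↔ f ∈ H ∧ (f = e ∨ ∃ u ∈ ends e, u ∉ A ∧ ∃ w ∈ ends f, w ∉ A ∧
    Reach H A u w) := by
  classical
  unfold cls
  rw [Finset.mem_filter]

theorem cls_sub : cls H A e ⊆ H := fun _ h => (mem_cls.1 h).1

theorem self_mem_cls (he : e ∈ H) : e ∈ cls H A e := mem_cls.2 ⟨he, Or.inl rfl⟩

theorem cls_step (hf : f ∈ cls H A e) (hg : g ∈ H) (hu : u ∉ A) (huf : u ∈ ends f)
    (hug : u ∈ ends g) : g ∈ cls H A e := by
  obtain ⟨hfH, rfl | ⟨u', hu', hu'A, w, hw, hwA, hr⟩⟩ := mem_cls.1 hf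
  · exact mem_cls.2 ⟨hg, Or.inr ⟨u, huf, hu, u, hug, hu, Relation.ReflTransGen.refl⟩⟩
  · exact mem_cls.2 ⟨hg, Or.inr ⟨u', hu', hu'A, u, hug, hu, reach_step hr hfH hw huf hu⟩⟩

theorem cls_closed {S : Finset Ed} (heS : e ∈ S)
    (hS : ∀ s ∈ S, ∀ g ∈ H, ∀ u, u ∉ A → u ∈ ends s → u ∈ ends g → g ∈ S) :
    cls H A e ⊆ S := by
  intro f hf
  obtain ⟨hfH, rfl | ⟨u, hu, huA, w, hw, hwA, hr⟩⟩ := mem_cls.1 hf
  · exact heS
  · have key : ∀ w, Reach H A u w → ∃ s ∈ S, w ∈ ends s := by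
      intro w hr
      unfold Reach at hr
      induction hr with
      | refl => exact ⟨e, heS, hu⟩
      | tail hab hbc ih =>
        obtain ⟨s, hs, hbs⟩ := ih
        obtain ⟨_, e', he', h1, h2⟩ := hbc
        exact ⟨e', hS s hs e' he' _ (reach_notin hab huA) hbs h1, h2⟩
    obtain ⟨s, hs, hws⟩ := key w hr
    exact hS s hs f hfH w hwA hws hw

theorem bd_cls : bd H (cls H A e) ⊆ A := by
  intro v hv
  obtain ⟨h1, h2⟩ := Finset.mem_inter.1 hv
  obtain ⟨f, hf, hvf⟩ := mem_vs.1 h1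
  obtain ⟨g, hg, hvg⟩ := mem_vs.1 h2
  obtain ⟨hgH, hgn⟩ := Finset.mem_sdiff.1 hg
  by_contra hvA
  exact hgn (cls_step hf hgH hvA hvf hvg)

theorem conn_cls (he : e ∈ H) : Conn (cls H A e) := by
  refine ⟨⟨e, self_mem_cls he⟩, ?_⟩
  intro X hX hXne hYne hdis
  rw [Finset.disjoint_left] at hdis
  by_cases heX : e ∈ X
  · have : cls H A e ⊆ X := by
      apply cls_closed heX
      intro s hs g hg u hu hus hug
      have hgc : g ∈ cls H A e := cls_step (hX hs) hg hu hus hug
      by_contra hgX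
      exact hdis (mem_vs.2 ⟨s, hs, hus⟩) (mem_vs.2 ⟨g, Finset.mem_sdiff.2 ⟨hgc, hgX⟩, hug⟩)
    obtain ⟨y, hy⟩ := hYne
    obtain ⟨hy1, hy2⟩ := Finset.mem_sdiff.1 hy
    exact hy2 (this hy1)
  · have heY : e ∈ cls H A e \ X := Finset.mem_sdiff.2 ⟨self_mem_cls he, heX⟩
    have : cls H A e ⊆ cls H A e \ X := by
      apply cls_closed heY
      intro s hs g hg u hu hus hug
      have hgc : g ∈ cls H A e := cls_step (Finset.mem_sdiff.1 hs).1 hg hu hus hug
      by_contra hgX
      have hgX' : g ∈ X := by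
        by_contra h
        exact hgX (Finset.mem_sdiff.2 ⟨hgc, h⟩)
      exact hdis (mem_vs.2 ⟨g, hgX', hug⟩) (mem_vs.2 ⟨s, hs, hus⟩)
    obtain ⟨y, hy⟩ := hXne
    exact (Finset.mem_sdiff.1 (this (hX hy))).2 hy

theorem ends_card (e : Ed) : (ends e).card ≤ 2 := by
  unfold ends
  exact Finset.card_le_two

theorem vs_pair (g f : Ed) : vs {g, f} = ends g ∪ ends f := by
  simp [vs]

theorem two_edges (hz : z ∈ ends g) (hug : u ∈ ends g) (huf : u ∈ ends f)
    (hzo : ∀ h ∈ H, z ∈ ends h → h = g) : (bd H {g, f}).card ≤ 2 := by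
  have hsub : bd H {g, f} ⊆ (ends g ∪ ends f).erase z := by
    intro w hw
    obtain ⟨h1, h2⟩ := Finset.mem_inter.1 hw
    rw [vs_pair] at h1
    refine Finset.mem_erase.2 ⟨?_, h1⟩
    rintro rfl
    obtain ⟨h, hh, hwh⟩ := mem_vs.1 h2
    obtain ⟨hhH, hhn⟩ := Finset.mem_sdiff.1 hh
    have := hzo h hhH hwh
    subst this
    exact hhn (by simp)
  have hc := Finset.card_le_card hsub
  rw [Finset.card_erase_of_mem (Finset.mem_union_left _ hz)] at hc
  have h1 := Finset.card_union_add_card_inter (ends g) (ends f)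
  have h2 : 1 ≤ (ends g ∩ ends f).card := Finset.card_pos.2 ⟨u, Finset.mem_inter.2 ⟨hug, huf⟩⟩
  have h3 := ends_card g
  have h4 := ends_card f
  omega

theorem other_end (hne : px g ≠ py g) (hz : z ∈ ends g) : ∃ u ∈ ends g, u ≠ z := by
  rcases mem_ends.1 hz with rfl | rfl
  · exact ⟨py g, mem_ends.2 (Or.inr rfl), fun h => hne h.symm⟩
  · exact ⟨px g, mem_ends.2 (Or.inl rfl), hne⟩

theorem eq_of_ends (hne : px g ≠ py g) {a b c : ℕ} (ha : a ∈ ends g) (hb : b ∈ ends g)
    (hc : c ∈ ends g) (hab : a ≠ b) : c = a ∨ c = b := by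
  have ha := mem_ends.1 ha
  have hb := mem_ends.1 hb
  have hc := mem_ends.1 hc
  omega

/-- the main argument for three-connectedness -/
theorem key
    (h2 : ∀ e ∈ H, ∀ f ∈ H, e ≠ f → (ends e ∩ ends f).Nonempty → 3 ≤ (bd H {e, f}).card)
    (B : Finset Ed) (hFH : F ⊆ H) (hFB : F ⊆ B) (hF2 : 2 ≤ F.card) (hconn : Conn F)
    (hFmin : ∀ a' b', ∀ e ∈ H, cls H {a', b'} e ⊆ B → 2 ≤ (cls H {a', b'} e).card →
      F.card ≤ (cls H {a', b'} e).card)
    (p q : ℕ) (hv : v ∈ vs F) (hz : z ∈ vs F) (hvA : v ∉ ({p, q} : Finset ℕ))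
    (hzA : z ∉ ({p, q} : Finset ℕ)) (hnr : ¬ Reach F {p, q} z v)
    (hnb : ∀ w, Reach F {p, q} z w → w ∉ bd H F) : False := by
  classical
  set S : Finset Ed := F.filter (fun e => ∃ w ∈ ends e, Reach F {p, q} z w) with hS
  -- all `H`-edges at a reachable vertex are in `F`
  have hall : ∀ w, Reach F {p, q} z w → ∀ g ∈ H, w ∈ ends g → g ∈ F := by
    intro w hw g hg hwg
    by_contra hgF
    exact hnb w hw (Finset.mem_inter.2 ⟨reach_vs hw hz,
      mem_vs.2 ⟨g, Finset.mem_sdiff.2 ⟨hg, hgF⟩, hwg⟩⟩)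
  obtain ⟨g, hg, hzg⟩ := mem_vs.1 hz
  have hgS : g ∈ S := Finset.mem_filter.2 ⟨hg, z, hzg, Relation.ReflTransGen.refl⟩
  have hcls : cls H {p, q} g ⊆ S := by
    apply cls_closed hgS
    intro s hs h hh u hu hus huh
    obtain ⟨hsF, w, hws, hw⟩ := Finset.mem_filter.1 hs
    have hru : Reach F {p, q} z u := reach_step hw hsF hws hus hu
    exact Finset.mem_filter.2 ⟨hall u hru h hh huh, u, huh, hru⟩
  have hSF : S ⊂ F := by
    refine Finset.ssubset_iff_subset_ne.2 ⟨Finset.filter_subset _ _, fun hEq => ?_⟩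
    obtain ⟨fv, hfv, hvf⟩ := mem_vs.1 hv
    rw [← hEq] at hfv
    obtain ⟨hfF, w, hw1, hw2⟩ := Finset.mem_filter.1 hfv
    exact hnr (reach_step hw2 hfF hw1 hvf hvA)
  have hlt : (cls H {p, q} g).card < F.card :=
    lt_of_le_of_lt (Finset.card_le_card hcls) (Finset.card_lt_card hSF)
  have hone : ¬ 2 ≤ (cls H {p, q} g).card := fun h =>
    absurd (hFmin p q g (hFH hg) (hcls.trans (hSF.1.trans hFB)) h) (by omega)
  have hcle : (cls H {p, q} g).card ≤ 1 := by omega
  have hzo : ∀ h ∈ H, z ∈ ends h → h = g := by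
    intro h hh hzh
    have h1 : h ∈ cls H {p, q} g := cls_step (self_mem_cls (hFH hg)) hh hzA hzg hzh
    have h0 : g ∈ cls H {p, q} g := self_mem_cls (hFH hg)
    exact Finset.card_le_one.1 hcle h h1 g h0
  -- a further edge
  have hne' : (F \ {g}).Nonempty := by
    rw [← Finset.card_pos, Finset.card_sdiff_of_subset (Finset.singleton_subset_iff.2 hg)]
    simp
    omega
  have hnd := hconn.2 {g} (Finset.singleton_subset_iff.2 hg) ⟨g, Finset.mem_singleton_self g⟩ hne'
  rw [Finset.not_disjoint_iff] at hnd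
  obtain ⟨u, hu1, hu2⟩ := hnd
  obtain ⟨g', hg', hug⟩ := mem_vs.1 hu1
  rw [Finset.mem_singleton] at hg'
  subst hg'
  obtain ⟨f, hf, huf⟩ := mem_vs.1 hu2
  obtain ⟨hfF, hfg⟩ := Finset.mem_sdiff.1 hf
  have hfg' : g' ≠ f := fun h => hfg (by simp [h])
  have h3 := h2 g' (hFH hg) f (hFH hfF) hfg' ⟨u, Finset.mem_inter.2 ⟨hug, huf⟩⟩
  have h4 := two_edges (H := H) hzg hug huf hzo
  omega

/-- the main argument for the existence of the outer path -/
theorem keyK (hne : ∀ e ∈ H, px e ≠ py e)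
    (h2 : ∀ e ∈ H, ∀ f ∈ H, e ≠ f → (ends e ∩ ends f).Nonempty → 3 ≤ (bd H {e, f}).card)
    (a₀ : ℕ) (e₀ : Ed)
    (hBmin : ∀ a, ∀ e ∈ H, 2 ≤ (cls H {a} e).card → (cls H {a₀} e₀).card ≤ (cls H {a} e).card)
    (hFH : F ⊆ H) (hFB : F ⊆ cls H {a₀} e₀) (x y : ℕ) (hbd : bd H F = {x, y})
    (hx : ¬ Reach (H \ F) ∅ y x) (ha₀ : ¬ Reach (H \ F) ∅ y a₀) : False := by
  classical
  have hyb : y ∈ bd H F := by rw [hbd]; simp
  obtain ⟨hyF, hyK⟩ := Finset.mem_inter.1 hyb
  obtain ⟨f, hf, hyf⟩ := mem_vs.1 hyF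
  obtain ⟨g, hg, hyg⟩ := mem_vs.1 hyK
  obtain ⟨hgH, hgF⟩ := Finset.mem_sdiff.1 hg
  set S : Finset Ed := (H \ F).filter (fun e => ∃ w ∈ ends e, Reach (H \ F) ∅ y w) with hS
  have hgS : g ∈ S := Finset.mem_filter.2 ⟨hg, y, hyg, Relation.ReflTransGen.refl⟩
  -- all vertices of `S` are reachable
  have hvS : ∀ s ∈ S, ∀ u ∈ ends s, Reach (H \ F) ∅ y u := by
    intro s hs u hu
    obtain ⟨hsK, w, hws, hw⟩ := Finset.mem_filter.1 hs
    exact reach_step hw hsK hws hu (by simp)
  -- everything reachable is in the class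
  have hB : ∀ w, Reach (H \ F) ∅ y w → ∃ b ∈ cls H {a₀} e₀, w ∈ ends b := by
    intro w hw
    unfold Reach at hw
    induction hw with
    | refl => exact ⟨f, hFB hf, hyf⟩
    | tail hab hbc ih =>
      obtain ⟨b, hb, hwb⟩ := ih
      obtain ⟨_, e', he', h1, h2'⟩ := hbc
      refine ⟨e', cls_step hb (Finset.mem_sdiff.1 he').1 ?_ hwb h1, h2'⟩
      rw [Finset.mem_singleton]
      rintro rfl
      exact ha₀ hab
  have hSB : S ⊆ cls H {a₀} e₀ := by
    intro s hs
    obtain ⟨hsK, w, hws, hw⟩ := Finset.mem_filter.1 hs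
    obtain ⟨b, hb, hwb⟩ := hB w hw
    refine cls_step hb (Finset.mem_sdiff.1 hsK).1 ?_ hwb hws
    rw [Finset.mem_singleton]
    rintro rfl
    exact ha₀ hw
  have hlt : S.card < (cls H {a₀} e₀).card := by
    apply Finset.card_lt_card
    refine Finset.ssubset_iff_subset_ne.2 ⟨hSB, fun hEq => ?_⟩
    have : f ∈ S := by rw [hEq]; exact hFB hf
    exact (Finset.mem_sdiff.1 (Finset.mem_filter.1 this).1).2 hf
  have hcls : cls H {y} g ⊆ S := by
    apply cls_closed hgS
    intro s hs h hh u hu hus huh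
    have hru := hvS s hs u hus
    by_cases hhF : h ∈ F
    · exfalso
      have hub : u ∈ bd H F := Finset.mem_inter.2 ⟨mem_vs.2 ⟨h, hhF, huh⟩,
        mem_vs.2 ⟨s, (Finset.mem_filter.1 hs).1, hus⟩⟩
      rw [hbd] at hub
      rcases Finset.mem_insert.1 hub with rfl | h'
      · exact hx hru
      · exact hu (by simpa using h')
    · exact Finset.mem_filter.2 ⟨Finset.mem_sdiff.2 ⟨hh, hhF⟩, u, huh, hru⟩
  have hcle : (cls H {y} g).card ≤ 1 := by
    by_contra hcon
    have h1 := hBmin y g hgH (by omega)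
    have h2' := Finset.card_le_card hcls
    omega
  obtain ⟨u, hug, huy⟩ := other_end (hne g hgH) hyg
  have huo : ∀ h ∈ H, u ∈ ends h → h = g := by
    intro h hh huh
    have h1 : h ∈ cls H {y} g :=
      cls_step (self_mem_cls hgH) hh (by simpa using huy) hug huh
    exact Finset.card_le_one.1 hcle h h1 g (self_mem_cls hgH)
  have hgf : g ≠ f := fun h => hgF (h ▸ hf)
  have h3 := h2 g hgH f (hFH hf) hgf ⟨y, Finset.mem_inter.2 ⟨hyg, hyf⟩⟩
  have h4 := two_edges (H := H) hug hyg hyf huo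
  omega

/-- The structure of minimal parts. -/
theorem piece (H : Finset Ed) (hne : ∀ e ∈ H, px e ≠ py e)
    (h2 : ∀ e ∈ H, ∀ f ∈ H, e ≠ f → (ends e ∩ ends f).Nonempty → 3 ≤ (bd H {e, f}).card)
    (a₀ : ℕ) (e₀ : Ed) (he₀ : e₀ ∈ H) (hB : 2 ≤ (cls H {a₀} e₀).card)
    (hBmin : ∀ a, ∀ e ∈ H, 2 ≤ (cls H {a} e).card → (cls H {a₀} e₀).card ≤ (cls H {a} e).card)
    (a b : ℕ) (e₁ : Ed) (he₁ : e₁ ∈ H) (F : Finset Ed) (hF : F = cls H {a, b} e₁)
    (hFB : F ⊆ cls H {a₀} e₀) (hF2 : 2 ≤ F.card)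
    (hFmin : ∀ a' b', ∀ e ∈ H, cls H {a', b'} e ⊆ cls H {a₀} e₀ → 2 ≤ (cls H {a', b'} e).card →
      F.card ≤ (cls H {a', b'} e).card) :
    Conn F ∧ (∀ e ∈ F, ∀ f ∈ F, e ≠ f → ends e ≠ ends f) ∧
    (((bd H F).card ≤ 1 ∧ Three F) ∨
      ∃ x y, x ≠ y ∧ bd H F = {x, y} ∧ (∀ e ∈ F, ends e ≠ {x, y}) ∧
        (∃ K ⊆ H \ F, Conn K ∧ x ∈ vs K ∧ y ∈ vs K) ∧ ∀ k, Three (insert (E k x y) F)) := by
  classical
  have hFH : F ⊆ H := hF ▸ cls_sub
  have hconn : Conn F := hF ▸ conn_cls he₁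
  have hbda : bd H F ⊆ {a, b} := by rw [hF]; exact bd_cls
  have hkey : ∀ p q v z : ℕ, v ∈ vs F → z ∈ vs F → v ∉ ({p, q} : Finset ℕ) →
      z ∉ ({p, q} : Finset ℕ) → ¬ Reach F {p, q} z v →
      (∀ w, Reach F {p, q} z w → w ∉ bd H F) → False :=
    fun p q v z hv hz hvA hzA hnr hnb =>
      key h2 (cls H {a₀} e₀) hFH hFB hF2 hconn hFmin p q hv hz hvA hzA hnr hnb
  refine ⟨hconn, ?_, ?_⟩
  · intro e he f hf hef hends
    have hne' : (ends e ∩ ends f).Nonempty := by
      refine ⟨px e, Finset.mem_inter.2 ⟨mem_ends.2 (Or.inl rfl), ?_⟩⟩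
      rw [← hends]
      exact mem_ends.2 (Or.inl rfl)
    have h3 := h2 e (hFH he) f (hFH hf) hef hne'
    have h4 : (bd H {e, f}).card ≤ 2 := by
      have : bd H {e, f} ⊆ ends e := by
        intro w hw
        have := (Finset.mem_inter.1 hw).1
        rw [vs_pair, ← hends, Finset.union_self] at this
        exact this
      exact (Finset.card_le_card this).trans (ends_card e)
    omega
  · by_cases hc : (bd H F).card ≤ 1
    · left
      refine ⟨hc, ?_⟩
      intro v hv z hz p q hvp hvq hzp hzq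
      have hvA : v ∉ ({p, q} : Finset ℕ) := by simp [hvp, hvq]
      have hzA : z ∉ ({p, q} : Finset ℕ) := by simp [hzp, hzq]
      by_contra hnr
      have hnr' : ¬ Reach F {p, q} z v := fun h => hnr (reach_symm h hzA)
      have h1 : ∃ w, Reach F {p, q} z w ∧ w ∈ bd H F := by
        by_contra hcon
        push Not at hcon
        exact hkey p q v z hv hz hvA hzA hnr' hcon
      have h1' : ∃ w, Reach F {p, q} v w ∧ w ∈ bd H F := by
        by_contra hcon
        push Not at hcon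
        exact hkey p q z v hz hv hzA hvA hnr hcon
      obtain ⟨w, hw, hwb⟩ := h1
      obtain ⟨w', hw', hwb'⟩ := h1'
      have hww : w = w' := Finset.card_le_one.1 hc w hwb w' hwb'
      subst hww
      exact hnr (reach_trans hw' (reach_symm hw hzA))
    · right
      have hab : bd H F = {a, b} := by
        apply Finset.eq_of_subset_of_card_le hbda
        have : ({a, b} : Finset ℕ).card ≤ 2 := Finset.card_le_two
        omega
      have hne_ab : a ≠ b := by
        rintro rfl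
        rw [hab] at hc
        simp at hc
      have haF : a ∈ vs F := (Finset.mem_inter.1 (show a ∈ bd H F by rw [hab]; simp)).1
      have hbF : b ∈ vs F := (Finset.mem_inter.1 (show b ∈ bd H F by rw [hab]; simp)).1
      have haK : a ∈ vs (H \ F) := (Finset.mem_inter.1 (show a ∈ bd H F by rw [hab]; simp)).2
      have hbK : b ∈ vs (H \ F) := (Finset.mem_inter.1 (show b ∈ bd H F by rw [hab]; simp)).2
      refine ⟨a, b, hne_ab, hab, ?_, ?_, ?_⟩
      · intro e he hee
        have he' := he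
        rw [hF] at he'
        have hee1 : e = e₁ := by
          obtain ⟨_, h | ⟨u, hu, huA, w, hw, hwA, hr⟩⟩ := mem_cls.1 he'
          · exact h
          · exfalso
            rw [hee] at hw
            exact hwA hw
        have hsub : F ⊆ {e₁} := by
          intro f hf
          rw [hF] at hf
          obtain ⟨_, h | ⟨u, hu, huA, w, hw, hwA, hr⟩⟩ := mem_cls.1 hf
          · rw [h]; simp
          · exfalso
            rw [← hee1, hee] at hu
            exact huA hu
        have := Finset.card_le_card hsub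
        simp at this
        omega
      · obtain ⟨g, hg, hag⟩ := mem_vs.1 haK
        obtain ⟨g', hg', hbg⟩ := mem_vs.1 hbK
        by_cases hr : Reach (H \ F) ∅ a b
        · refine ⟨cls (H \ F) ∅ g, cls_sub, conn_cls hg, mem_vs.2 ⟨g, self_mem_cls hg, hag⟩, ?_⟩
          exact mem_vs.2 ⟨g', mem_cls.2 ⟨hg', Or.inr ⟨a, hag, by simp, b, hbg, by simp, hr⟩⟩, hbg⟩
        · exfalso
          have hr' : ¬ Reach (H \ F) ∅ b a := fun h => hr (reach_symm h (by simp))
          by_cases ha₀ : Reach (H \ F) ∅ b a₀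
          · have ha₀' : ¬ Reach (H \ F) ∅ a a₀ := fun h =>
              hr (reach_trans h (reach_symm ha₀ (by simp)))
            exact keyK hne h2 a₀ e₀ hBmin hFH hFB b a (by rw [hab, Finset.pair_comm]) hr ha₀'
          · exact keyK hne h2 a₀ e₀ hBmin hFH hFB a b hab hr' ha₀
      · intro k v hv z hz p q hvp hvq hzp hzq
        set F' := insert (E k a b) F with hF'
        have hEab : ends (E k a b) = {a, b} := by simp [ends]
        have hvs : vs F' = vs F := by
          rw [hF', vs_insert, hEab]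
          apply Finset.union_eq_right.2
          intro w hw
          rcases Finset.mem_insert.1 hw with rfl | h
          · exact haF
          · rw [Finset.mem_singleton] at h
            rw [h]
            exact hbF
        rw [hvs] at hv hz
        have hFF' : F ⊆ F' := Finset.subset_insert _ _
        have hvA : v ∉ ({p, q} : Finset ℕ) := by simp [hvp, hvq]
        have hzA : z ∉ ({p, q} : Finset ℕ) := by simp [hzp, hzq]
        by_contra hnr
        have hnr' : ¬ Reach F' {p, q} z v := fun h => hnr (reach_symm h hzA)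
        have h1 : ∃ w, Reach F' {p, q} z w ∧ w ∈ bd H F := by
          by_contra hcon
          push Not at hcon
          exact hkey p q v z hv hz hvA hzA (fun h => hnr' (reach_mono hFF' h))
            (fun w hw => hcon w (reach_mono hFF' hw))
        have h1' : ∃ w, Reach F' {p, q} v w ∧ w ∈ bd H F := by
          by_contra hcon
          push Not at hcon
          exact hkey p q z v hz hv hzA hvA (fun h => hnr (reach_mono hFF' h))
            (fun w hw => hcon w (reach_mono hFF' hw))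
        obtain ⟨w, hw, hwb⟩ := h1
        obtain ⟨w', hw', hwb'⟩ := h1'
        rw [hab] at hwb hwb'
        have hww : Reach F' {p, q} w' w := by
          refine Relation.ReflTransGen.single ⟨reach_notin hw hzA, E k a b, Finset.mem_insert_self _ _, ?_, ?_⟩
          · rw [hEab]; exact hwb'
          · rw [hEab]; exact hwb
        exact hnr (reach_trans (reach_trans hw' hww) (reach_symm hw hzA))

end Pool.Agent.TH135.J2476
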